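import Pool.Agent.W23.PP.Defs
import Pool.Agent.W214.PL.SMO

/-! PP-SMOP (owner helper23): smooth parts of values of polynomials at sifted integers (Rankin's
trick). Adapted from `Pool.Agent.W503.KI.SMOI` and `Pool.Agent.W214.PL.SMO`. -/

set_option autoImplicit false

namespace Pool.Agent.W766.PP

open Finset
open Pool.Agent.H442R2
open Pool.Agent.H442R2.KF
open Pool.Agent.W23.DC
open Pool.Agent.W23.SG
open Pool.Agent.W23.PL
open Pool.Agent.W23.KT
open Pool.Agent.W23.PP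
open Pool.Agent.W214.PL (hf hf_sum hf_nonneg hf_mult hf_pow one_le_rpow_prime rpow_sub_one_le
  ratio_le strip eventually_N)
open Pool.Agent.Helper256.KM (mertens_log)

/-! ### the weighted sum over smooth numbers -/

/-- the summand -/
noncomputable def Gq (K α : ℝ) (n : ℕ) : ℝ := hf α n * K ^ n.primeFactors.card / n

lemma Gq_one (K α : ℝ) : Gq K α 1 = 1 := by
  simp [Gq, (hf_mult α).1]

lemma Gq_mul (K α : ℝ) {m n : ℕ} (h : m.Coprime n) : Gq K α (m * n) = Gq K α m * Gq K α n := by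
  unfold Gq
  rw [(hf_mult α).2 h, h.primeFactors_mul, Finset.card_union_of_disjoint h.disjoint_primeFactors,
    pow_add]
  push_cast
  rw [← mul_div_mul_comm]
  congr 1
  ring

lemma Gq_nonneg {K α : ℝ} (hK : 0 ≤ K) (hα : 0 ≤ α) (n : ℕ) : 0 ≤ Gq K α n :=
  div_nonneg (mul_nonneg (hf_nonneg hα n) (pow_nonneg hK _)) (Nat.cast_nonneg _)

lemma Gq_pow (K α : ℝ) {p : ℕ} (hp : p.Prime) (k : ℕ) :
    Gq K α (p ^ (k + 1)) = K * ((p : ℝ) ^ α - 1) / p * ((p : ℝ) ^ α / p) ^ k := by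
  unfold Gq
  rw [hf_pow α hp, Nat.primeFactors_prime_pow (Nat.succ_ne_zero k) hp, Finset.card_singleton,
    pow_one]
  have hp1 : (0 : ℝ) < p := by exact_mod_cast hp.pos
  push_cast
  rw [div_pow, pow_succ]
  field_simp

lemma Gq_tsum {K α : ℝ} (hK : 0 ≤ K) (hα : 0 ≤ α) (hα2 : α ≤ 1 / 2) {p : ℕ} (hp : p.Prime) :
    Summable (fun n : ℕ => ‖Gq K α (p ^ n)‖) ∧
      ∑' n : ℕ, Gq K α (p ^ n) ≤ 1 + 4 * K * ((p : ℝ) ^ α - 1) / p := by
  obtain ⟨hr0, hr1⟩ := ratio_le hα2 hp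
  set r := (p : ℝ) ^ α / p with hr
  have hp2 : (2 : ℝ) ≤ p := by exact_mod_cast hp.two_le
  have h1a := one_le_rpow_prime hα hp
  have hgeo : Summable (fun k : ℕ => K * ((p : ℝ) ^ α - 1) / p * r ^ k) :=
    (summable_geometric_of_lt_one hr0 (by linarith)).mul_left _
  have hS : Summable (fun n : ℕ => Gq K α (p ^ n)) := by
    rw [← summable_nat_add_iff 1]
    refine hgeo.congr fun k => ?_
    rw [Gq_pow K α hp]
  refine ⟨hS.norm, ?_⟩
  rw [hS.tsum_eq_zero_add]
  rw [pow_zero, Gq_one]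
  have h2 : ∑' k : ℕ, Gq K α (p ^ (k + 1)) = K * ((p : ℝ) ^ α - 1) / p * (1 - r)⁻¹ := by
    rw [← tsum_geometric_of_lt_one hr0 (by linarith), ← tsum_mul_left]
    exact tsum_congr fun k => Gq_pow K α hp k
  rw [h2]
  have h3 : (1 - r)⁻¹ ≤ 4 := by
    rw [inv_le_comm₀ (by linarith) (by norm_num)]
    linarith
  have h5 : 0 ≤ K * ((p : ℝ) ^ α - 1) / p :=
    div_nonneg (mul_nonneg hK (by linarith)) (by linarith)
  have h6 : K * ((p : ℝ) ^ α - 1) / p * (1 - r)⁻¹ ≤ (K * ((p : ℝ) ^ α - 1) / p) * 4 :=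
    mul_le_mul_of_nonneg_left h3 h5
  have h7 : (K * ((p : ℝ) ^ α - 1) / p) * 4 = 4 * K * ((p : ℝ) ^ α - 1) / p := by ring
  linarith

/-- Rankin's sum over smooth numbers -/
lemma rankin_sum {K α : ℝ} (hK : 0 ≤ K) (hα : 0 ≤ α) (hα2 : α ≤ 1 / 2) (Y : ℕ)
    (hY : ∀ p : ℕ, p.Prime → p < Y → α * Real.log p ≤ 1) (T : Finset ℕ)
    (hT : ∀ d ∈ T, d ≠ 0 ∧ ∀ l : ℕ, l.Prime → l ∣ d → l < Y) :
    ∑ d ∈ T, Gq K α d ≤ Real.exp (8 * K * α * ∑ p ∈ Y.primesBelow, Real.log p / p) := by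
  have h1 := EulerProduct.summable_and_hasSum_smoothNumbers_prod_primesBelow_tsum (f := Gq K α)
    (Gq_one K α) (fun h => Gq_mul K α h) (fun hp => (Gq_tsum hK hα hα2 hp).1) Y
  have h2 : HasSum (fun n => (Nat.smoothNumbers Y).indicator (Gq K α) n)
      (∏ p ∈ Y.primesBelow, ∑' n : ℕ, Gq K α (p ^ n)) :=
    hasSum_subtype_iff_indicator.1 h1.2
  have h3 : ∑ d ∈ T, Gq K α d = ∑ d ∈ T, (Nat.smoothNumbers Y).indicator (Gq K α) d := by
    refine Finset.sum_congr rfl fun d hd => ?_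
    rw [Set.indicator_of_mem]
    rw [Nat.mem_smoothNumbers']
    exact fun p hp hpd => (hT d hd).2 p hp hpd
  rw [h3]
  have h4 := sum_le_hasSum T (fun n _ => Set.indicator_nonneg (fun m _ => Gq_nonneg hK hα m) n) h2
  refine h4.trans ?_
  rw [Finset.mul_sum, Real.exp_sum]
  refine Finset.prod_le_prod (fun p _ => tsum_nonneg fun n => Gq_nonneg hK hα _) fun p hp => ?_
  have hpp := Nat.prime_of_mem_primesBelow hp
  have hpY := Nat.lt_of_mem_primesBelow hp
  have hp0 : (0 : ℝ) < p := by exact_mod_cast hpp.pos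
  have h5 := rpow_sub_one_le hα hpp (hY p hpp hpY)
  have h6 := (Gq_tsum hK hα hα2 hpp).2
  have h7 : 1 + 4 * K * ((p : ℝ) ^ α - 1) / p ≤ 1 + 8 * K * α * (Real.log p / p) := by
    have : 4 * K * ((p : ℝ) ^ α - 1) / p ≤ 4 * K * (2 * (α * Real.log p)) / p := by
      gcongr
    have e : 4 * K * (2 * (α * Real.log p)) / p = 8 * K * α * (Real.log p / p) := by ring
    linarith
  have h8 := Real.add_one_le_exp (8 * K * α * (Real.log p / p))
  linarith

/-- the smooth sum with `α = 1 / log y` -/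
lemma smooth_sum {CM : ℝ} (hCM : ∀ N : ℕ, 1 ≤ N →
    |∑ p ∈ (Finset.Icc 1 N).filter Nat.Prime, Real.log p / p - Real.log N| ≤ CM) {y K : ℝ}
    (hK : 0 ≤ K) (hy : 2 ≤ Real.log y) (hy1 : 1 < y) (T : Finset ℕ)
    (hT : ∀ d ∈ T, d ≠ 0 ∧ ∀ l : ℕ, l.Prime → l ∣ d → (l : ℝ) < y) :
    ∑ d ∈ T, Gq K (1 / Real.log y) d ≤ Real.exp (8 * K * (1 + |CM|)) := by
  have hα : (0 : ℝ) ≤ 1 / Real.log y := by positivity
  have hα2 : 1 / Real.log y ≤ 1 / 2 := one_div_le_one_div_of_le (by norm_num) hy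
  have hlt : ∀ p : ℕ, p < ⌈y⌉₊ → (p : ℝ) < y := fun p hp => Nat.lt_ceil.1 hp
  refine (rankin_sum hK hα hα2 ⌈y⌉₊ ?_ T ?_).trans ?_
  · intro p hp hpY
    have hp0 : (0 : ℝ) < p := by exact_mod_cast hp.pos
    have := Real.log_le_log hp0 (hlt p hpY).le
    rw [one_div, inv_mul_le_iff₀ (by linarith)]
    linarith
  · intro d hd
    exact ⟨(hT d hd).1, fun l hl hld => Nat.lt_ceil.2 ((hT d hd).2 l hl hld)⟩
  · apply Real.exp_le_exp.2
    have hsub : (⌈y⌉₊).primesBelow ⊆ (Finset.Icc 1 ⌊y⌋₊).filter Nat.Prime := by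
      intro p hp
      have hpp := Nat.prime_of_mem_primesBelow hp
      have hpY := Nat.lt_of_mem_primesBelow hp
      rw [Finset.mem_filter, Finset.mem_Icc]
      exact ⟨⟨hpp.one_lt.le, Nat.le_floor (hlt p hpY).le⟩, hpp⟩
    have h1 : ∑ p ∈ (⌈y⌉₊).primesBelow, Real.log p / p ≤
        ∑ p ∈ (Finset.Icc 1 ⌊y⌋₊).filter Nat.Prime, Real.log p / p := by
      refine Finset.sum_le_sum_of_subset_of_nonneg hsub fun p hp _ => ?_
      have : 1 ≤ p := (Finset.mem_Icc.1 (Finset.mem_filter.1 hp).1).1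
      have h1p : (1 : ℝ) ≤ p := by exact_mod_cast this
      exact div_nonneg (Real.log_nonneg h1p) (by linarith)
    have hfl : 1 ≤ ⌊y⌋₊ := Nat.le_floor (by simpa using hy1.le)
    have h2 := (abs_le.1 (hCM ⌊y⌋₊ hfl)).2
    have hfl' : (0 : ℝ) < (⌊y⌋₊ : ℝ) := by exact_mod_cast hfl
    have h3 : Real.log (⌊y⌋₊ : ℝ) ≤ Real.log y :=
      Real.log_le_log hfl' (Nat.floor_le (by linarith))
    have h4 : ∑ p ∈ (⌈y⌉₊).primesBelow, Real.log p / p ≤ Real.log y + |CM| := by
      have := le_abs_self CM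
      linarith
    calc 8 * K * (1 / Real.log y) * ∑ p ∈ (⌈y⌉₊).primesBelow, Real.log p / p
        ≤ 8 * K * (1 / Real.log y) * (Real.log y + |CM|) := by
          gcongr
      _ = 8 * K * (1 + 1 / Real.log y * |CM|) := by
          field_simp
      _ ≤ 8 * K * (1 + 1 * |CM|) := by
          gcongr
          linarith
      _ = 8 * K * (1 + |CM|) := by ring

/-! ### classes -/

/-- `l^(k(v_l(d)-1)+1) ∣ φ n` for all `l ∣ d` -/
def Hd (k : ℕ) (φ : ℤ → ℤ) (d : ℕ) (n : ℤ) : Prop :=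
  ∀ l : ℕ, l.Prime → l ∣ d → ((l ^ (k * (d.factorization l - 1) + 1) : ℕ) : ℤ) ∣ φ n

lemma classes {k M N : ℕ} {φ : ℤ → ℤ} (h : Sy k M N φ) (d : ℕ) : d ≠ 0 →
    ∃ R : Finset ℕ, R.card ≤ k ^ d.primeFactors.card ∧
      ∀ n : ℤ, Hd k φ d n → ∃ r ∈ R, (d : ℤ) ∣ n - r := by
  induction d using Nat.recOnPosPrimePosCoprime with
  | zero => exact fun h => absurd rfl h
  | one => exact fun _ => ⟨{0}, by simp, fun n _ => ⟨0, by simp, by simp⟩⟩
  | prime_pow p j hp hj =>
    intro _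
    obtain ⟨Ω, h1, h2⟩ := h.lift p j hp hj
    refine ⟨Ω, ?_, ?_⟩
    · rw [Nat.primeFactors_prime_pow (by omega) hp, Finset.card_singleton, pow_one]
      exact h1
    · intro n hn
      apply h2
      have h3 := hn p hp (dvd_pow_self p (by omega))
      rwa [hp.factorization_pow, Finsupp.single_eq_same] at h3
  | coprime a b ha hb hab iha ihb =>
    intro _
    obtain ⟨Ra, ha1, ha2⟩ := iha (by omega)
    obtain ⟨Rb, hb1, hb2⟩ := ihb (by omega)
    refine ⟨(Ra ×ˢ Rb).image (fun x => (Nat.chineseRemainder hab x.1 x.2 : ℕ)), ?_, ?_⟩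
    · rw [hab.primeFactors_mul, Finset.card_union_of_disjoint hab.disjoint_primeFactors, pow_add]
      refine Finset.card_image_le.trans ?_
      rw [Finset.card_product]
      exact Nat.mul_le_mul ha1 hb1
    · intro n hn
      have hna : Hd k φ a n := by
        intro l hl hla
        have h3 := hn l hl (hla.mul_right b)
        have h4 : (a * b).factorization l = a.factorization l := by
          apply Nat.factorization_eq_of_coprime_left hab
          exact (Nat.mem_primeFactorsList (by omega)).2 ⟨hl, hla⟩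
        rwa [h4] at h3
      have hnb : Hd k φ b n := by
        intro l hl hlb
        have h3 := hn l hl (hlb.mul_left a)
        have h4 : (a * b).factorization l = b.factorization l := by
          apply Nat.factorization_eq_of_coprime_right hab
          exact (Nat.mem_primeFactorsList (by omega)).2 ⟨hl, hlb⟩
        rwa [h4] at h3
      obtain ⟨r, hr, hr'⟩ := ha2 n hna
      obtain ⟨s, hs, hs'⟩ := hb2 n hnb
      refine ⟨Nat.chineseRemainder hab r s, Finset.mem_image.2 ⟨(r, s), by simp [hr, hs], rfl⟩, ?_⟩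
      have hc := (Nat.chineseRemainder hab r s).2
      have h5 : (a : ℤ) ∣ n - ((Nat.chineseRemainder hab r s : ℕ) : ℤ) := by
        have := (Nat.modEq_iff_dvd.1 hc.1)
        have e : n - ((Nat.chineseRemainder hab r s : ℕ) : ℤ) = (n - r) +
          ((r : ℤ) - ((Nat.chineseRemainder hab r s : ℕ) : ℤ)) := by ring
        rw [e]
        exact dvd_add hr' this
      have h6 : (b : ℤ) ∣ n - ((Nat.chineseRemainder hab r s : ℕ) : ℤ) := by
        have := (Nat.modEq_iff_dvd.1 hc.2)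
        have e : n - ((Nat.chineseRemainder hab r s : ℕ) : ℤ) = (n - s) +
          ((s : ℤ) - ((Nat.chineseRemainder hab r s : ℕ) : ℤ)) := by ring
        rw [e]
        exact dvd_add hs' this
      push_cast
      exact (Nat.isCoprime_iff_coprime.2 hab).mul_dvd h5 h6

/-! ### the root `h` of the smooth part -/

/-- `∏ l^⌈v_l(m)/k⌉` -/
noncomputable def rt (k m : ℕ) (hk : 1 ≤ k) : ℕ →₀ ℕ :=
  m.factorization.mapRange (fun b => (b + k - 1) / k)
    (by rw [Nat.zero_add]; exact Nat.div_eq_of_lt (by omega))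

lemma rt_apply (k m : ℕ) (hk : 1 ≤ k) (l : ℕ) :
    rt k m hk l = (m.factorization l + k - 1) / k := by
  simp [rt]

lemma rt_prime (k m : ℕ) (hk : 1 ≤ k) {l : ℕ} (hl : l ∈ (rt k m hk).support) :
    l.Prime ∧ l ∣ m := by
  have h1 : l ∈ m.factorization.support := Finsupp.support_mapRange hl
  rw [Nat.support_factorization] at h1
  exact ⟨Nat.prime_of_mem_primeFactors h1, Nat.dvd_of_mem_primeFactors h1⟩

lemma rt_fac (k m : ℕ) (hk : 1 ≤ k) :
    ((rt k m hk).prod (fun l b => l ^ b)).factorization = rt k m hk :=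
  Nat.prod_pow_factorization_eq_self fun _ hl => (rt_prime k m hk hl).1

lemma rt_ne (k m : ℕ) (hk : 1 ≤ k) : (rt k m hk).prod (fun l b => l ^ b) ≠ 0 := by
  rw [Finsupp.prod, Finset.prod_ne_zero_iff]
  intro l hl
  exact pow_ne_zero _ (rt_prime k m hk hl).1.ne_zero

lemma rt_pow (k m : ℕ) (hk : 1 ≤ k) (hm : m ≠ 0) :
    m ≤ ((rt k m hk).prod (fun l b => l ^ b)) ^ k := by
  apply Nat.le_of_dvd (Nat.pos_of_ne_zero (pow_ne_zero _ (rt_ne k m hk)))
  rw [← Nat.factorization_le_iff_dvd hm (pow_ne_zero _ (rt_ne k m hk)), Nat.factorization_pow,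
    rt_fac]
  intro l
  rw [Finsupp.smul_apply, rt_apply, smul_eq_mul]
  have h1 := Nat.div_add_mod (m.factorization l + k - 1) k
  have h2 := Nat.mod_lt (m.factorization l + k - 1) (show 0 < k by omega)
  omega

lemma rt_dvd (k m : ℕ) (hk : 1 ≤ k) {φ : ℤ → ℤ} {n : ℤ} (hmn : (m : ℤ) ∣ φ n)
    {d : ℕ} (hd : d ∣ (rt k m hk).prod (fun l b => l ^ b)) : Hd k φ d n := by
  intro l hl hld
  have hd0 : d ≠ 0 := ne_zero_of_dvd_ne_zero (rt_ne k m hk) hd
  have h1 := (Nat.factorization_le_iff_dvd hd0 (rt_ne k m hk)).2 hd l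
  rw [rt_fac, rt_apply] at h1
  have h2 : 1 ≤ d.factorization l := (hl.dvd_iff_one_le_factorization hd0).1 hld
  have h3 : k * (d.factorization l - 1) + 1 ≤ m.factorization l := by
    have h4 := (Nat.le_div_iff_mul_le (show 0 < k by omega)).1 h1
    obtain ⟨j, hj⟩ : ∃ j, d.factorization l = j + 1 := ⟨d.factorization l - 1, by omega⟩
    rw [hj] at h4 ⊢
    have h5 : (j + 1) * k = k * j + k := by ring
    rw [h5] at h4
    rw [Nat.add_sub_cancel]
    omega
  have h6 : l ^ (k * (d.factorization l - 1) + 1) ∣ m :=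
    (pow_dvd_pow l h3).trans (Nat.ordProj_dvd m l)
  exact (Int.natCast_dvd_natCast.2 h6).trans hmn

lemma VP_nonneg (φ : ℤ → ℤ) (P : Finset ℕ) : 0 ≤ VP φ P := by
  unfold VP
  refine Finset.prod_nonneg fun p _ => ?_
  have : rh φ p ≤ 1 := by
    unfold rh
    apply div_le_one_of_le₀ _ (Nat.cast_nonneg _)
    unfold nr
    have := Finset.card_filter_le (range p) (fun a : ℕ => (p : ℤ) ∣ φ a)
    rw [Finset.card_range] at this
    classical
    exact_mod_cast (Finset.card_le_card (Finset.filter_subset _ _)).trans (Finset.card_range p).le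
  linarith

theorem SMOP (hUBSP : St_UBSP) (_hVLBP : St_VLBP) : St_SMOP := by
  classical
  intro k M B hk hB ε₁ κ hε hε1 hκ hκ1
  obtain ⟨CU, NU, hCU, hU⟩ := hUBSP k M B hk hB ε₁ κ hε hε1 hκ hκ1
  obtain ⟨CM, hCM⟩ := mertens_log
  set K : ℝ := 2 * (k : ℝ) ^ 2 with hK
  have hK0 : 0 ≤ K := by positivity
  refine ⟨CU * Real.exp (8 * K * (1 + |CM|)), by positivity, fun u hu => ?_⟩
  obtain ⟨N₀, hN₀⟩ := eventually_N B u NU 0 one_pos
  refine ⟨N₀, fun N hN φ0 φ hφ0 hφ hCp => ?_⟩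
  obtain ⟨h1, -, h3, h4, -⟩ := hN₀ N hN
  set L := Real.log (N : ℝ) with hL
  set W := VP φ0 (P0 N κ) * VP φ (P1 N B ε₁) with hWdef
  have hW0 : 0 ≤ W := mul_nonneg (VP_nonneg _ _) (VP_nonneg _ _)
  set y := L ^ B with hy
  set Z := (N : ℝ) ^ (1 / 20 : ℝ) with hZ
  have he1 : (2 : ℝ) < Real.exp 1 := by
    have := Real.exp_one_gt_d9
    linarith
  have hL2 : 2 < L := lt_of_lt_of_le he1 h3
  have hL0 : 0 < L := by linarith
  have hlogL : 1 ≤ Real.log L := by
    rw [Real.le_log_iff_exp_le hL0]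
    exact h3
  have hy1 : 1 < y := one_lt_pow₀ (by linarith) (by omega)
  have hlogy : 2 ≤ Real.log y := by
    rw [hy, Real.log_pow]
    have : (2 : ℝ) ≤ B := by exact_mod_cast hB
    nlinarith
  set α := 1 / Real.log y with hα
  have hα0 : 0 ≤ α := by positivity
  have hαy : α * Real.log y = 1 := by
    rw [hα]
    field_simp
  -- the set
  set A := (Icc 1 N).filter (fun n : ℕ => xx (P0 N κ) (φ0 n) = 1 ∧ φ n ≠ 0 ∧
      xx (P1 N B ε₁) (φ n) = 1 ∧
      ∃ m : ℕ, m ∣ (φ n).natAbs ∧ (∀ l : ℕ, l.Prime → l ∣ m → (l : ℝ) < y) ∧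
      L ^ (B * (k * u)) < m) with hA
  set T := (Icc 1 ⌊Z⌋₊).filter (fun d : ℕ => ∀ l : ℕ, l.Prime → l ∣ d → (l : ℝ) < y) with hT
  have hZy : y ^ u * y ≤ Z := by
    have : y ^ u * y = L ^ (B * u) * L ^ B := by
      rw [hy, ← pow_mul]
    rw [this]
    exact h4
  have hpt : ∀ n ∈ A,
      (1 : ℝ) ≤ Real.exp (-(u : ℝ)) * ∑ d ∈ T, if Hd k φ d n then hf α d else 0 := by
    intro n hn
    rw [hA, Finset.mem_filter] at hn
    obtain ⟨hnN, hx0, hne, hxx, m, hm, hms, hmu⟩ := hn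
    have hyk : L ^ (B * (k * u)) = (y ^ u) ^ k := by
      rw [hy, ← pow_mul, ← pow_mul]
      congr 1
      ring
    rw [hyk] at hmu
    have hyu : 0 < y ^ u := by positivity
    have hm0 : m ≠ 0 := by
      rintro rfl
      have : (0 : ℝ) < (y ^ u) ^ k := by positivity
      push_cast at hmu
      linarith
    have hmφ : (m : ℤ) ∣ φ n := Int.natCast_dvd.2 hm
    set h := (rt k m hk).prod (fun l b => l ^ b) with hh
    have hhm : (m : ℝ) ≤ (h : ℝ) ^ k := by exact_mod_cast rt_pow k m hk hm0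
    have hhu : y ^ u < h := lt_of_pow_lt_pow_left₀ k (Nat.cast_nonneg _) (hmu.trans_le hhm)
    have hhs : ∀ l : ℕ, l.Prime → l ∣ h → (l : ℝ) < y := by
      intro l hl hlh
      refine hms l hl ?_
      have hl1 : l ∈ h.factorization.support := by
        rw [Nat.support_factorization]
        exact (Nat.mem_primeFactors).2 ⟨hl, hlh, rt_ne k m hk⟩
      rw [hh, rt_fac] at hl1
      exact (rt_prime k m hk hl1).2
    obtain ⟨m', hm'h, hwm', hm'Z⟩ := strip (one_le_pow₀ hy1.le) (by linarith) hZy h hhs hhu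
    have hm's : ∀ l : ℕ, l.Prime → l ∣ m' → (l : ℝ) < y := fun l hl hlm => hhs l hl (hlm.trans hm'h)
    have hm'0 : m' ≠ 0 := by
      rintro rfl
      push_cast at hwm'
      linarith
    have hm'pos : (0 : ℝ) < m' := by exact_mod_cast Nat.pos_of_ne_zero hm'0
    have hdiv : (m'.divisors) ⊆ T := by
      intro d hd
      have hdm := Nat.dvd_of_mem_divisors hd
      rw [hT, Finset.mem_filter, Finset.mem_Icc]
      refine ⟨⟨Nat.pos_of_mem_divisors hd, Nat.le_floor ?_⟩, fun l hl hld => hm's l hl (hld.trans hdm)⟩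
      have : (d : ℝ) ≤ m' := by exact_mod_cast Nat.le_of_dvd (Nat.pos_of_ne_zero hm'0) hdm
      linarith
    have hsum : (m' : ℝ) ^ α ≤ ∑ d ∈ T, if Hd k φ d n then hf α d else 0 := by
      rw [← hf_sum α hm'0]
      calc ∑ d ∈ m'.divisors, hf α d
          = ∑ d ∈ m'.divisors, if Hd k φ d n then hf α d else 0 := by
            refine Finset.sum_congr rfl fun d hd => ?_
            rw [if_pos]
            exact rt_dvd k m hk hmφ ((Nat.dvd_of_mem_divisors hd).trans hm'h)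
        _ ≤ _ := by
            refine Finset.sum_le_sum_of_subset_of_nonneg hdiv fun d _ _ => ?_
            split_ifs
            · exact hf_nonneg hα0 d
            · exact le_rfl
    have hbig : Real.exp u ≤ (m' : ℝ) ^ α := by
      rw [Real.rpow_def_of_pos hm'pos]
      apply Real.exp_le_exp.2
      have : Real.log (y ^ u) ≤ Real.log m' := Real.log_le_log (by positivity) hwm'.le
      rw [Real.log_pow] at this
      calc (u : ℝ) = u * Real.log y * α := by rw [mul_assoc, mul_comm (Real.log y), hαy, mul_one]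
        _ ≤ Real.log m' * α := by gcongr
    calc (1 : ℝ) = Real.exp (-(u : ℝ)) * Real.exp u := by rw [← Real.exp_add]; simp
      _ ≤ Real.exp (-(u : ℝ)) * ∑ d ∈ T, if Hd k φ d n then hf α d else 0 := by
          gcongr
          exact hbig.trans hsum
  have d1 : (A.card : ℝ) ≤ ∑ n ∈ A, Real.exp (-(u : ℝ)) *
      ∑ d ∈ T, if Hd k φ d n then hf α d else 0 := by
    rw [Finset.card_eq_sum_ones]
    push_cast
    exact Finset.sum_le_sum hpt
  have d2 : ∑ n ∈ A, Real.exp (-(u : ℝ)) *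
      ∑ d ∈ T, (if Hd k φ d n then hf α d else 0) =
      Real.exp (-(u : ℝ)) * ∑ d ∈ T, hf α d *
        ((A.filter (fun n : ℕ => Hd k φ d n)).card : ℝ) := by
    rw [← Finset.mul_sum, Finset.sum_comm]
    congr 1
    refine Finset.sum_congr rfl fun d _ => ?_
    rw [← Finset.sum_filter, Finset.sum_const, nsmul_eq_mul, mul_comm]
  have d3 : ∀ d ∈ T, hf α d * ((A.filter (fun n : ℕ => Hd k φ d n)).card : ℝ) ≤
      CU * W * N * Gq K α d := by
    intro d hd
    rw [hT, Finset.mem_filter, Finset.mem_Icc] at hd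
    obtain ⟨⟨hd1, hdZ⟩, hds⟩ := hd
    have hdZ' : (d : ℝ) ≤ Z := by
      have h0 : (d : ℝ) ≤ (⌊Z⌋₊ : ℝ) := by exact_mod_cast hdZ
      exact h0.trans (Nat.floor_le (by positivity))
    obtain ⟨R, hR1, hR2⟩ := classes hφ d (by omega)
    have hUd := fun r : ℕ => hU N h1 φ0 φ hφ0 hφ hCp d hd1 hdZ' (r : ℤ)
    have hc : ((A.filter (fun n : ℕ => Hd k φ d n)).card : ℝ) ≤
        ∑ r ∈ R, CU * kw (2 * k) d * (N / d) * W := by
      have hsub : A.filter (fun n : ℕ => Hd k φ d n) ⊆ R.biUnion (fun r : ℕ =>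
          (Icc 1 N).filter (fun n : ℕ => (d : ℤ) ∣ (n : ℤ) - (r : ℤ) ∧
            xx (P0 N κ) (φ0 n) = 1 ∧ xx (P1 N B ε₁) (φ n) = 1)) := by
        intro n hn
        rw [Finset.mem_filter, hA, Finset.mem_filter] at hn
        obtain ⟨⟨hnN, hx0, hne, hxx, _⟩, hnd⟩ := hn
        obtain ⟨r, hr, hr'⟩ := hR2 n hnd
        rw [Finset.mem_biUnion]
        refine ⟨r, hr, ?_⟩
        rw [Finset.mem_filter]
        exact ⟨hnN, hr', hx0, hxx⟩
      have h5 : ((A.filter (fun n : ℕ => Hd k φ d n)).card : ℝ) ≤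
          ∑ r ∈ R, (((Icc 1 N).filter (fun n : ℕ => (d : ℤ) ∣ (n : ℤ) - (r : ℤ) ∧
            xx (P0 N κ) (φ0 n) = 1 ∧ xx (P1 N B ε₁) (φ n) = 1)).card : ℝ) := by
        exact_mod_cast (Finset.card_le_card hsub).trans Finset.card_biUnion_le
      refine h5.trans (Finset.sum_le_sum fun r _ => ?_)
      exact hUd r
    rw [Finset.sum_const, nsmul_eq_mul] at hc
    have hd0 : (0 : ℝ) < d := by exact_mod_cast hd1
    have hRk : (R.card : ℝ) ≤ (k : ℝ) ^ d.primeFactors.card := by exact_mod_cast hR1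
    have hhf := hf_nonneg hα0 d
    have hkw : 0 ≤ kw (2 * k) d := by unfold kw; positivity
    calc hf α d * ((A.filter (fun n : ℕ => Hd k φ d n)).card : ℝ)
        ≤ hf α d * (R.card * (CU * kw (2 * k) d * (N / d) * W)) :=
          mul_le_mul_of_nonneg_left hc hhf
      _ ≤ hf α d * ((k : ℝ) ^ d.primeFactors.card * (CU * kw (2 * k) d * (N / d) * W)) := by
          gcongr
      _ = CU * W * N * Gq K α d := by
          unfold Gq kw
          have e : K ^ d.primeFactors.card = (k : ℝ) ^ d.primeFactors.card *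
              ((2 * k : ℕ) : ℝ) ^ d.primeFactors.card := by
            rw [← mul_pow, hK]
            push_cast
            ring
          rw [e]
          field_simp
  have d4 : ∑ d ∈ T, Gq K α d ≤ Real.exp (8 * K * (1 + |CM|)) := by
    refine smooth_sum hCM hK0 hlogy hy1 T fun d hd => ?_
    rw [hT, Finset.mem_filter, Finset.mem_Icc] at hd
    exact ⟨by omega, hd.2⟩
  calc (A.card : ℝ) ≤ Real.exp (-(u : ℝ)) *
        ∑ d ∈ T, hf α d * ((A.filter (fun n : ℕ => Hd k φ d n)).card : ℝ) := by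
        rw [← d2]
        exact d1
    _ ≤ Real.exp (-(u : ℝ)) * ∑ d ∈ T, CU * W * N * Gq K α d := by
        exact mul_le_mul_of_nonneg_left (Finset.sum_le_sum d3) (Real.exp_nonneg _)
    _ = Real.exp (-(u : ℝ)) * (CU * W * N * ∑ d ∈ T, Gq K α d) := by
        rw [← Finset.mul_sum]
    _ ≤ Real.exp (-(u : ℝ)) * (CU * W * N * Real.exp (8 * K * (1 + |CM|))) := by
        gcongr
    _ = _ := by ring

end Pool.Agent.W766.PP
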